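import Pool.Agent.Helper15.PM.Pivot

/-!
# Pivots: change of the basis
-/

set_option autoImplicit false
set_option linter.deprecated false

namespace Pool.Agent.Helper35.PM

open Finset
open scoped Classical

theorem basis_vec_mem {V : Type} (G : SimpleGraph V) (R : Finset V)
    (hR : ∀ x ∈ R, ∀ y ∈ R, ¬ G.Adj x y) {x : V} (hx : x ∈ R) (r : V) :
    vec G R x r = if r = x then 1 else 0 := by
  unfold vec
  by_cases h : r = x
  · subst h
    simp [hx]
  · rw [if_neg h, if_neg]
    rintro ⟨h1, h2 | h2⟩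
    · exact h h2.symm
    · exact hR x hx r h1 h2

theorem basis_vec_notMem {V : Type} (G : SimpleGraph V) (R : Finset V) {x r : V} (hx : x ∉ R)
    (hr : r ∈ R) : vec G R x r = if G.Adj x r then 1 else 0 := by
  unfold vec
  have h : x ≠ r := fun e => hx (e ▸ hr)
  simp [hr, h]

theorem basis_two {E : Type} [AddCommGroup E] [Module (ZMod 2) E] (e : E) : e + e = 0 := by
  have h : (2 : ZMod 2) • e = 0 := by
    have : (2 : ZMod 2) = 0 := by decide
    rw [this, zero_smul]
  rwa [two_smul] at h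

/-- one step of the exchange -/
theorem basis_step {V E : Type} [AddCommGroup E] [Module (ZMod 2) E] (b : V → E) (R : Finset V)
    (T : Finset V) (hT : LinearIndepOn (ZMod 2) b (T : Set V)) (G : SimpleGraph V)
    (σ : Equiv.Perm V) (hR : ∀ x ∈ R, ∀ y ∈ R, ¬ G.Adj x y)
    (hI : LinearIndepOn (ZMod 2) (fun r => b (σ r)) (R : Set V))
    (hF : ∀ x, b (σ x) = ∑ r ∈ R, vec G R x r • b (σ r)) (t : V) (ht : t ∈ T)
    (htR : σ.symm t ∉ R) :
    ∃ (G' : SimpleGraph V) (σ' : Equiv.Perm V), PivotStep G G' ∧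
      (∀ x ∈ R, ∀ y ∈ R, ¬ G'.Adj x y) ∧
      LinearIndepOn (ZMod 2) (fun r => b (σ' r)) (R : Set V) ∧
      (∀ x, b (σ' x) = ∑ r ∈ R, vec G' R x r • b (σ' r)) ∧
      (T.filter fun x => σ'.symm x ∉ R) ⊂ T.filter fun x => σ.symm x ∉ R := by
  set c₀ := σ.symm t with hc₀
  have hσc : σ c₀ = t := by rw [hc₀, Equiv.apply_symm_apply]
  -- choice of the row
  obtain ⟨r₀, hr₀, hadj, hr₀T⟩ : ∃ r₀ ∈ R, G.Adj c₀ r₀ ∧ σ r₀ ∉ T := by
    by_contra hcon
    push Not at hcon
    rw [linearIndepOn_iff_notMem_span] at hT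
    apply hT t ht
    rw [← hσc, hF c₀]
    refine Submodule.sum_mem _ fun r hr => ?_
    rw [basis_vec_notMem G R htR hr]
    by_cases h : G.Adj c₀ r
    · rw [if_pos h, one_smul]
      refine Submodule.subset_span ⟨σ r, ⟨hcon r hr h, ?_⟩, rfl⟩
      rw [Set.mem_singleton_iff]
      intro e
      have := σ.injective e
      exact htR (this ▸ hr)
    · rw [if_neg h, zero_smul]
      exact Submodule.zero_mem _
  have hcr : c₀ ≠ r₀ := hadj.ne
  obtain ⟨G', hstep, hG'⟩ := pivot_exists G c₀ r₀ hadj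
  set σ' : Equiv.Perm V := σ * Equiv.swap c₀ r₀ with hσ'
  have hσr : σ' r₀ = t := by rw [hσ', Equiv.Perm.mul_apply, Equiv.swap_apply_right, hσc]
  have hσ'c : σ' c₀ = σ r₀ := by rw [hσ', Equiv.Perm.mul_apply, Equiv.swap_apply_left]
  have hσo : ∀ x, x ≠ c₀ → x ≠ r₀ → σ' x = σ x := by
    intro x h1 h2
    rw [hσ', Equiv.Perm.mul_apply, Equiv.swap_apply_of_ne_of_ne h1 h2]
  have hneR : ∀ x ∈ R, x ≠ c₀ := fun x hx e => htR (e ▸ hx)
  have hindep : ∀ x ∈ R, ∀ y ∈ R, ¬ G'.Adj x y := by
    intro x hx y hy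
    rw [hG']
    have h1 := hR x hx y hy
    have h2 := hR r₀ hr₀ y hy
    have h3 := hR r₀ hr₀ x hx
    simp [Xor', h1, h2, h3]
  -- the element `b t`
  set S : E := ∑ r ∈ R.erase r₀, vec G R c₀ r • b (σ r) with hS
  have hbt : b t = b (σ r₀) + S := by
    rw [← hσc, hF c₀, ← Finset.add_sum_erase R _ hr₀, basis_vec_notMem G R htR hr₀, if_pos hadj,
      one_smul]
  have hsum : ∀ x, ∑ r ∈ R, vec G' R x r • b (σ' r) =
      vec G' R x r₀ • b t + ∑ r ∈ R.erase r₀, vec G' R x r • b (σ r) := by
    intro x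
    rw [← Finset.add_sum_erase R _ hr₀, hσr]
    congr 1
    refine Finset.sum_congr rfl fun r hr => ?_
    rw [hσo r (hneR r (Finset.mem_of_mem_erase hr)) (Finset.ne_of_mem_erase hr)]
  refine ⟨G', σ', hstep, hindep, ?_, ?_, ?_⟩
  · -- independence
    have hRi : (R : Set V) = insert r₀ ((R.erase r₀ : Finset V) : Set V) := by
      rw [← Finset.coe_insert, Finset.insert_erase hr₀]
    have hni : r₀ ∉ ((R.erase r₀ : Finset V) : Set V) := by simp
    rw [hRi, linearIndepOn_insert hni] at hI ⊢
    obtain ⟨h1, h2⟩ := hI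
    have hcongr : ∀ r ∈ ((R.erase r₀ : Finset V) : Set V), b (σ r) = b (σ' r) := by
      intro r hr
      rw [Finset.mem_coe, Finset.mem_erase] at hr
      rw [hσo r (hneR r hr.2) hr.1]
    have himg : (fun r => b (σ' r)) '' ((R.erase r₀ : Finset V) : Set V) =
        (fun r => b (σ r)) '' ((R.erase r₀ : Finset V) : Set V) :=
      Set.image_congr fun r hr => (hcongr r hr).symm
    refine ⟨h1.congr hcongr, ?_⟩
    rw [himg]
    intro h3
    apply h2
    simp only [hσr] at h3
    have h4 : S ∈ Submodule.span (ZMod 2) ((fun r => b (σ r)) '' ((R.erase r₀ : Finset V) : Set V)) := by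
      rw [hS]
      exact Submodule.sum_mem _ fun r hr =>
        Submodule.smul_mem _ _ (Submodule.subset_span ⟨r, hr, rfl⟩)
    have h5 : b (σ r₀) = b t - S := by rw [hbt, add_sub_cancel_right]
    simp only [h5]
    exact Submodule.sub_mem _ h3 h4
  · -- coordinates
    intro x
    rw [hsum x]
    by_cases hx : x ∈ R
    · by_cases hxr : x = r₀
      · subst hxr
        rw [hσr, basis_vec_mem G' R hindep hx, if_pos rfl, one_smul]
        rw [Finset.sum_eq_zero, add_zero]
        intro r hr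
        rw [basis_vec_mem G' R hindep hx, if_neg (Finset.ne_of_mem_erase hr), zero_smul]
      · rw [hσo x (hneR x hx) hxr, basis_vec_mem G' R hindep hx, if_neg (fun e => hxr e.symm),
          zero_smul, zero_add, Finset.sum_eq_single x]
        · rw [basis_vec_mem G' R hindep hx, if_pos rfl, one_smul]
        · intro r _ hne
          rw [basis_vec_mem G' R hindep hx, if_neg hne, zero_smul]
        · intro h
          exact absurd (Finset.mem_erase.2 ⟨hxr, hx⟩) h
    · by_cases hxc : x = c₀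
      · subst hxc
        have h1 : ∀ r ∈ R, vec G' R c₀ r = vec G R c₀ r := by
          intro r hr
          rw [basis_vec_notMem G' R hx hr, basis_vec_notMem G R hx hr, hG']
          simp [Xor', Xor]
        rw [hσ'c, h1 r₀ hr₀, basis_vec_notMem G R hx hr₀, if_pos hadj, one_smul]
        have h2 : ∑ r ∈ R.erase r₀, vec G' R c₀ r • b (σ r) = S := by
          rw [hS]
          exact Finset.sum_congr rfl fun r hr => by rw [h1 r (Finset.mem_of_mem_erase hr)]
        rw [h2, hbt, add_assoc, basis_two, add_zero]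
      · have hxr : x ≠ r₀ := fun e => hx (e ▸ hr₀)
        rw [hσo x hxc hxr, hF x, ← Finset.add_sum_erase R _ hr₀]
        have h1 : vec G' R x r₀ = vec G R x r₀ := by
          rw [basis_vec_notMem G' R hx hr₀, basis_vec_notMem G R hx hr₀, hG']
          simp [Xor', Xor]
        have h2 : ∀ r ∈ R.erase r₀, vec G' R x r = vec G R x r + vec G R x r₀ * vec G R c₀ r := by
          intro r hr
          have hr' := Finset.mem_of_mem_erase hr
          have hrr := Finset.ne_of_mem_erase hr
          have h3 := hR r₀ hr₀ r hr'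
          rw [basis_vec_notMem G' R hx hr', basis_vec_notMem G R hx hr',
            basis_vec_notMem G R hx hr₀, basis_vec_notMem G R htR hr', hG']
          have h4 : G.Adj r₀ x ↔ G.Adj x r₀ := G.adj_comm _ _
          simp only [hxc, hxr, hneR r hr', hrr, h3, h4, ne_eq, not_false_eq_true, true_and,
            and_false]
          by_cases h5 : G.Adj x r <;> by_cases h6 : G.Adj x r₀ <;> by_cases h7 : G.Adj c₀ r <;>
            simp [Xor', h5, h6, h7] <;> decide
        have hsum2 : ∑ r ∈ R.erase r₀, vec G' R x r • b (σ r) =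
            ∑ r ∈ R.erase r₀, vec G R x r • b (σ r) + vec G R x r₀ • S := by
          rw [hS, Finset.smul_sum, ← Finset.sum_add_distrib]
          exact Finset.sum_congr rfl fun r hr => by rw [h2 r hr, add_smul, mul_smul]
        rw [h1, hsum2, hbt, smul_add]
        have h3 := basis_two (vec G R x r₀ • S)
        have h4 : ∀ a b c : E, a + b + (c + b) = a + c + (b + b) := by intros; abel
        rw [h4, h3, add_zero]
  · -- the count
    rw [Finset.ssubset_iff_of_subset]
    · refine ⟨t, ?_, ?_⟩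
      · simp only [Finset.mem_filter]
        exact ⟨ht, htR⟩
      · simp only [Finset.mem_filter, not_and, not_not]
        intro _
        have : σ'.symm t = r₀ := by rw [← hσr, Equiv.symm_apply_apply]
        rw [this]
        exact hr₀
    · intro x hx
      simp only [Finset.mem_filter] at hx ⊢
      refine ⟨hx.1, fun h => hx.2 ?_⟩
      have h1 : σ.symm x ≠ c₀ := hneR _ h
      have h2 : σ.symm x ≠ r₀ := by
        intro e
        apply hr₀T
        rw [← e, Equiv.apply_symm_apply]
        exact hx.1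
      have h3 : σ'.symm x = σ.symm x := by
        rw [Equiv.symm_apply_eq, hσo _ h1 h2, Equiv.apply_symm_apply]
      rw [h3]
      exact h

theorem basis_chain {V E : Type} [AddCommGroup E] [Module (ZMod 2) E] (b : V → E) (R : Finset V)
    (T : Finset V) (hT : LinearIndepOn (ZMod 2) b (T : Set V)) (n : ℕ) :
    ∀ (G : SimpleGraph V) (σ : Equiv.Perm V), (∀ x ∈ R, ∀ y ∈ R, ¬ G.Adj x y) →
      LinearIndepOn (ZMod 2) (fun r => b (σ r)) (R : Set V) →
      (∀ x, b (σ x) = ∑ r ∈ R, vec G R x r • b (σ r)) →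
      (T.filter fun x => σ.symm x ∉ R).card ≤ n →
      ∃ (G' : SimpleGraph V) (σ' : Equiv.Perm V), Relation.ReflTransGen PivotStep G G' ∧
        (∀ x ∈ R, ∀ y ∈ R, ¬ G'.Adj x y) ∧ (∀ x ∈ T, σ'.symm x ∈ R) ∧
        LinearIndepOn (ZMod 2) (fun r => b (σ' r)) (R : Set V) ∧
        ∀ x, b (σ' x) = ∑ r ∈ R, vec G' R x r • b (σ' r) := by
  induction n with
  | zero =>
    intro G σ hR hI hF hn
    refine ⟨G, σ, Relation.ReflTransGen.refl, hR, ?_, hI, hF⟩
    intro x hx
    by_contra h
    have h1 : x ∈ T.filter fun x => σ.symm x ∉ R := by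
      simp only [Finset.mem_filter]
      exact ⟨hx, h⟩
    have h2 := Finset.card_pos.2 ⟨x, h1⟩
    omega
  | succ n ih =>
    intro G σ hR hI hF hn
    by_cases h : ∀ x ∈ T, σ.symm x ∈ R
    · exact ⟨G, σ, Relation.ReflTransGen.refl, hR, h, hI, hF⟩
    · push Not at h
      obtain ⟨t, ht, htR⟩ := h
      obtain ⟨G', σ', h1, h2, h3, h4, h5⟩ := basis_step b R T hT G σ hR hI hF t ht htR
      have h6 := Finset.card_lt_card h5
      obtain ⟨G'', σ'', h7, h8⟩ := ih G' σ' h2 h3 h4 (by omega)
      exact ⟨G'', σ'', Relation.ReflTransGen.head h1 h7, h8⟩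

/-- PM-2 -/
theorem basis_change {V : Type} [Fintype V] (G : SimpleGraph V) (R : Finset V)
    (hR : ∀ x ∈ R, ∀ y ∈ R, ¬ G.Adj x y) (T : Finset V)
    (hT : LinearIndepOn (ZMod 2) (vec G R) (T : Set V)) :
    ∃ (G' : SimpleGraph V) (σ : Equiv.Perm V), Relation.ReflTransGen PivotStep G G' ∧
      (∀ x ∈ R, ∀ y ∈ R, ¬ G'.Adj x y) ∧ (∀ x ∈ T, σ.symm x ∈ R) ∧
      LinearIndepOn (ZMod 2) (fun r => vec G R (σ r)) (R : Set V) ∧
      ∀ x, vec G R (σ x) = ∑ r ∈ R, vec G' R x r • vec G R (σ r) := by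
  have hunit : ∀ x ∈ R, vec G R x = Pi.single x 1 := by
    intro x hx
    funext r
    rw [basis_vec_mem G R hR hx, Pi.single_apply]
  refine basis_chain (vec G R) R T hT _ G 1 hR ?_ ?_ le_rfl
  · have h1 : LinearIndepOn (ZMod 2) (fun x : V => (Pi.single x 1 : V → ZMod 2)) (R : Set V) := by
      have h2 : LinearIndependent (ZMod 2) (fun x : V => (Pi.single x 1 : V → ZMod 2)) :=
        Pi.linearIndependent_single_one V (ZMod 2)
      exact h2.linearIndepOn _
    refine h1.congr ?_
    intro x hx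
    simp only [Equiv.Perm.coe_one, id_eq]
    exact (hunit x hx).symm
  · intro x
    simp only [Equiv.Perm.coe_one, id_eq]
    funext r
    rw [Finset.sum_apply]
    simp only [Pi.smul_apply, smul_eq_mul]
    by_cases hr : r ∈ R
    · rw [Finset.sum_eq_single r]
      · rw [hunit r hr, Pi.single_eq_same, mul_one]
      · intro r' hr' hne
        rw [hunit r' hr', Pi.single_eq_of_ne hne.symm, mul_zero]
      · intro h
        exact absurd hr h
    · rw [Finset.sum_eq_zero]
      · unfold vec
        rw [if_neg]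
        rintro ⟨h, -⟩
        exact hr h
      · intro r' hr'
        rw [hunit r' hr', Pi.single_eq_of_ne, mul_zero]
        rintro rfl
        exact hr hr'

end Pool.Agent.Helper35.PM
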