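import Pool.Agent.Helper79.PM.Expect

/-!
# Upper bound for the lossy triples
-/

set_option autoImplicit false

namespace Pool.Agent.Helper35.PM

open Finset
open scoped Classical

section

variable {V : Type} (s : Sys V)

/-- the possible hitting rows -/
noncomputable def lo_H (Y : Finset V) (x a' : V) : Finset V :=
  (s.N a' ∪ ((s.N a' ∩ Y).erase x).biUnion s.Bk) ∩ s.B

/-- the weight of a column -/
noncomputable def lo_G (Y Z : Finset V) (x a : V) : ℝ :=
  ∑ w ∈ s.N a \ Y, ∑ a' ∈ s.own Y x, ∑ z ∈ (lo_H s Y x a' \ s.N a) \ Y,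
    (4 / ((s.own Y x).card : ℝ)) * if ({w, z} : Finset V) ⊆ Z then (1 : ℝ) else 0

variable {s}

theorem lo_nonneg (Y Z : Finset V) (x a : V) : 0 ≤ lo_G s Y Z x a := by
  unfold lo_G
  refine Finset.sum_nonneg fun w _ => Finset.sum_nonneg fun a' _ => Finset.sum_nonneg fun z _ => ?_
  apply mul_nonneg (by positivity)
  split_ifs <;> norm_num

theorem lo_own {Λ D η : ℝ} {q : ℕ} (hs : s.OK Λ D η q) {Y : Finset V} (hY : Y ⊆ s.B)
    {x a : V} (hx : x ∈ Y) (ha : a ∈ s.own Y x) :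
    a ∈ s.A ∧ x ∈ s.N a ∩ Y ∧ (s.N a ∩ Y).card = 2 := by
  simp only [Sys.own, Sys.Act, Finset.mem_filter] at ha
  have h1 := hs.own x (hY hx) a ha.2
  exact ⟨ha.1.1, Finset.mem_inter.2 ⟨h1.2.1, hx⟩, ha.1.2.1⟩

theorem lo_TP {Λ D η : ℝ} {q : ℕ} (hs : s.OK Λ D η q) {Y Z : Finset V} {x a : V}
    (h : (x, a) ∈ s.TP Y Z) : x ∈ Y ∧ a ∈ s.own Y x ∧ ∃ w, w ∈ s.N a ∧ w ∈ Z ∧ w ∉ Y := by
  simp only [Sys.TP, Finset.mem_filter, Finset.mem_product] at h
  obtain ⟨⟨hx, haA⟩, haS, hxN, h3, hfree, h2⟩ := h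
  refine ⟨hx, ?_, ?_⟩
  · simp only [Sys.own, Sys.Act, Finset.mem_filter]
    refine ⟨⟨haA, h2, ?_, x, Finset.mem_inter.2 ⟨hxN, hx⟩, haS⟩, haS⟩
    intro v hv
    have hv' : v ∈ s.N a ∩ (Y ∪ Z) := by
      rw [Finset.mem_inter] at hv ⊢
      exact ⟨hv.1, Finset.mem_union_left _ hv.2⟩
    have h4 := hfree hv'
    simp only [Sys.Free, Finset.mem_filter] at h4 ⊢
    exact ⟨(Finset.mem_inter.1 hv).2, h4.2.mono_right Finset.subset_union_left⟩
  · by_contra hcon
    push Not at hcon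
    have h4 : s.N a ∩ (Y ∪ Z) ⊆ s.N a ∩ Y := by
      intro v hv
      rw [Finset.mem_inter, Finset.mem_union] at hv
      rw [Finset.mem_inter]
      refine ⟨hv.1, ?_⟩
      rcases hv.2 with h5 | h5
      · exact h5
      · exact hcon v hv.1 h5
    have := Finset.card_le_card h4
    omega

theorem lo_ge_one {Λ D η : ℝ} {q : ℕ} (hs : s.OK Λ D η q) {Y Z : Finset V}
    (hZ : Z ⊆ s.B \ Y) {x a : V} (h : (x, a) ∈ s.TP Y Z) (hL : s.Lossy Y Z x a) :
    1 ≤ lo_G s Y Z x a := by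
  obtain ⟨hx, hown, w, hwN, hwZ, hwY⟩ := lo_TP hs h
  have hpos : 0 < (s.own Y x).card := Finset.card_pos.2 ⟨a, hown⟩
  have hposR : (0 : ℝ) < (s.own Y x).card := by exact_mod_cast hpos
  have h1 : (4 / ((s.own Y x).card : ℝ)) * (s.hit Y Z x a).card ≤
      ∑ a' ∈ s.own Y x, ∑ z ∈ (lo_H s Y x a' \ s.N a) \ Y,
      (4 / ((s.own Y x).card : ℝ)) * if ({w, z} : Finset V) ⊆ Z then (1 : ℝ) else 0 := by
    have h2 : ((s.hit Y Z x a).card : ℝ) = ∑ a' ∈ s.own Y x,
        if (∃ z ∈ Z \ s.N a, z ∈ s.N a' ∨ ∃ y ∈ (s.N a' ∩ Y).erase x, z ∈ s.Bk y) then (1 : ℝ) else 0 := by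
      rw [Finset.sum_boole]
      rfl
    rw [h2, Finset.mul_sum]
    refine Finset.sum_le_sum fun a' ha' => ?_
    rw [← Finset.mul_sum]
    apply mul_le_mul_of_nonneg_left _ (by positivity)
    split_ifs with h3
    · obtain ⟨z, hz, hz2⟩ := h3
      rw [Finset.mem_sdiff] at hz
      have hzB := Finset.mem_sdiff.1 (hZ hz.1)
      have hzm : z ∈ (lo_H s Y x a' \ s.N a) \ Y := by
        simp only [lo_H, Finset.mem_sdiff, Finset.mem_inter, Finset.mem_union, Finset.mem_biUnion]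
        exact ⟨⟨⟨hz2, hzB.1⟩, hz.2⟩, hzB.2⟩
      have h4 : ∀ z ∈ (lo_H s Y x a' \ s.N a) \ Y,
          (0 : ℝ) ≤ if ({w, z} : Finset V) ⊆ Z then (1 : ℝ) else 0 := by
        intro z _
        split_ifs <;> norm_num
      refine le_trans ?_ (Finset.single_le_sum h4 hzm)
      rw [if_pos]
      intro v hv
      simp only [Finset.mem_insert, Finset.mem_singleton] at hv
      rcases hv with rfl | rfl
      · exact hwZ
      · exact hz.1
    · refine Finset.sum_nonneg fun z _ => ?_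
      split_ifs <;> norm_num
  have h2 : 1 ≤ (4 / ((s.own Y x).card : ℝ)) * (s.hit Y Z x a).card := by
    have h3 : ((s.own Y x).card : ℝ) < 4 * (s.hit Y Z x a).card := by exact_mod_cast hL
    rw [div_mul_eq_mul_div, le_div_iff₀ hposR]
    linarith
  have h3 : ∀ w ∈ s.N a \ Y, (0 : ℝ) ≤ ∑ a' ∈ s.own Y x, ∑ z ∈ (lo_H s Y x a' \ s.N a) \ Y,
      (4 / ((s.own Y x).card : ℝ)) * if ({w, z} : Finset V) ⊆ Z then (1 : ℝ) else 0 := by
    intro w _
    refine Finset.sum_nonneg fun a' _ => Finset.sum_nonneg fun z _ => ?_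
    apply mul_nonneg (by positivity)
    split_ifs <;> norm_num
  have h4 := Finset.single_le_sum h3 (Finset.mem_sdiff.2 ⟨hwN, hwY⟩)
  unfold lo_G
  linarith

theorem lo_count {Λ D η : ℝ} {q : ℕ} (hs : s.OK Λ D η q) {Y Z : Finset V}
    (hZ : Z ⊆ s.B \ Y) :
    (((s.TP Y Z).filter fun r => s.Lossy Y Z r.1 r.2).card : ℝ) ≤
      ∑ x ∈ Y, ∑ a ∈ s.own Y x, lo_G s Y Z x a := by
  have h1 : (((s.TP Y Z).filter fun r => s.Lossy Y Z r.1 r.2).card : ℝ) =
      ∑ x ∈ Y, ((((s.TP Y Z).filter fun r => s.Lossy Y Z r.1 r.2).filter fun r => r.1 = x).card : ℝ) := by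
    rw [Finset.card_eq_sum_card_fiberwise (f := Prod.fst) (t := Y)]
    · push_cast
      rfl
    · intro r hr
      rw [Finset.mem_coe, Finset.mem_filter] at hr
      exact (lo_TP hs hr.1).1
  rw [h1]
  refine Finset.sum_le_sum fun x hx => ?_
  have h2 : (((s.TP Y Z).filter fun r => s.Lossy Y Z r.1 r.2).filter fun r => r.1 = x).card ≤
      ((s.own Y x).filter fun a => (x, a) ∈ s.TP Y Z ∧ s.Lossy Y Z x a).card := by
    refine Finset.card_le_card_of_injOn Prod.snd ?_ ?_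
    · rintro ⟨x', a⟩ hr
      rw [Finset.mem_coe, Finset.mem_filter, Finset.mem_filter] at hr
      obtain ⟨⟨h3, h4⟩, rfl⟩ := hr
      rw [Finset.mem_coe, Finset.mem_filter]
      exact ⟨(lo_TP hs h3).2.1, h3, h4⟩
    · rintro ⟨x₁, a₁⟩ hr₁ ⟨x₂, a₂⟩ hr₂ h
      rw [Finset.mem_coe, Finset.mem_filter] at hr₁ hr₂
      have e1 := hr₁.2
      have e2 := hr₂.2
      simp only at h e1 e2
      rw [h, e1, e2]
  calc ((((s.TP Y Z).filter fun r => s.Lossy Y Z r.1 r.2).filter fun r => r.1 = x).card : ℝ) ≤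
      (((s.own Y x).filter fun a => (x, a) ∈ s.TP Y Z ∧ s.Lossy Y Z x a).card : ℝ) := by
        exact_mod_cast h2
    _ = ∑ a ∈ s.own Y x, if ((x, a) ∈ s.TP Y Z ∧ s.Lossy Y Z x a) then (1 : ℝ) else 0 := by
        rw [Finset.sum_boole]
    _ ≤ _ := by
        refine Finset.sum_le_sum fun a _ => ?_
        split_ifs with h3
        · exact lo_ge_one hs hZ h3.1 h3.2
        · exact lo_nonneg Y Z x a

theorem lo_H_card {Λ D η : ℝ} {q : ℕ} (hs : s.OK Λ D η q) {Y : Finset V} (hY : Y ⊆ s.B)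
    {x a' : V} (hx : x ∈ Y) (ha' : a' ∈ s.own Y x) :
    ((lo_H s Y x a').card : ℝ) ≤ 2 * (Λ * D) := by
  obtain ⟨haA, hxa, hcard⟩ := lo_own hs hY hx ha'
  have h1 : ((s.N a' ∩ Y).erase x).card = 1 := by
    rw [Finset.card_erase_of_mem hxa, hcard]
  obtain ⟨y, hy⟩ := Finset.card_eq_one.1 h1
  have hyB : y ∈ s.B := by
    have : y ∈ (s.N a' ∩ Y).erase x := by rw [hy]; simp
    exact hY (Finset.mem_inter.1 (Finset.mem_of_mem_erase this)).2
  have h2 : (lo_H s Y x a').card ≤ (s.N a').card + (s.Bk y).card := by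
    calc (lo_H s Y x a').card ≤ (s.N a' ∪ ((s.N a' ∩ Y).erase x).biUnion s.Bk).card :=
          Finset.card_le_card Finset.inter_subset_left
      _ = (s.N a' ∪ s.Bk y).card := by rw [hy, Finset.singleton_biUnion]
      _ ≤ _ := Finset.card_union_le _ _
  have h3 := hs.card_le a' haA
  have h4 := hs.back_card y hyB
  have h5 : ((lo_H s Y x a').card : ℝ) ≤ (s.N a').card + (s.Bk y).card := by exact_mod_cast h2
  linarith

theorem lo_Ex {Λ D η : ℝ} {q : ℕ} (hs : s.OK Λ D η q) (hΛ : 1 ≤ Λ) (p : ℝ) (hp : 0 < p)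
    (h1 : p ≤ 1 / 4) {Y : Finset V} (hY : Y ⊆ s.B) :
    Ex (p / (1 - p)) (s.B \ Y) (fun Z => ∑ x ∈ Y, ∑ a ∈ s.own Y x, lo_G s Y Z x a) ≤
      32 * Λ ^ 2 * (p * D) ^ 2 * (s.act2 Y : ℝ) := by
  have hD1 := hs.one_le
  have hpp : p / (1 - p) ≤ 2 * p := by
    rw [div_le_iff₀ (by linarith)]
    nlinarith
  have hpp0 : 0 ≤ p / (1 - p) := div_nonneg hp.le (by linarith)
  rw [Ex_sum, Sys.act2]
  push_cast
  rw [Finset.mul_sum]
  refine Finset.sum_le_sum fun x hx => ?_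
  rw [Ex_sum]
  by_cases hown : (s.own Y x).card = 0
  · rw [Finset.card_eq_zero] at hown
    rw [hown]
    simp
  have hposR : (0 : ℝ) < (s.own Y x).card := by
    have : 0 < (s.own Y x).card := Nat.pos_of_ne_zero hown
    exact_mod_cast this
  have hterm : ∀ a ∈ s.own Y x, Ex (p / (1 - p)) (s.B \ Y) (fun Z => lo_G s Y Z x a) ≤
      32 * Λ ^ 2 * (p * D) ^ 2 := by
    intro a ha
    obtain ⟨haA, hxa, -⟩ := lo_own hs hY hx ha
    unfold lo_G
    rw [Ex_sum]
    have hw : ∀ w ∈ s.N a \ Y, Ex (p / (1 - p)) (s.B \ Y) (fun Z => ∑ a' ∈ s.own Y x,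
        ∑ z ∈ (lo_H s Y x a' \ s.N a) \ Y,
        (4 / ((s.own Y x).card : ℝ)) * if ({w, z} : Finset V) ⊆ Z then (1 : ℝ) else 0) ≤
        32 * Λ * D * p ^ 2 := by
      intro w hw
      rw [Ex_sum]
      have ha' : ∀ a' ∈ s.own Y x, Ex (p / (1 - p)) (s.B \ Y) (fun Z =>
          ∑ z ∈ (lo_H s Y x a' \ s.N a) \ Y,
          (4 / ((s.own Y x).card : ℝ)) * if ({w, z} : Finset V) ⊆ Z then (1 : ℝ) else 0) ≤
          (4 / ((s.own Y x).card : ℝ)) * (8 * Λ * D * p ^ 2) := by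
        intro a' ha'
        rw [Ex_sum]
        have hz : ∀ z ∈ (lo_H s Y x a' \ s.N a) \ Y, Ex (p / (1 - p)) (s.B \ Y) (fun Z =>
            (4 / ((s.own Y x).card : ℝ)) * if ({w, z} : Finset V) ⊆ Z then (1 : ℝ) else 0) ≤
            (4 / ((s.own Y x).card : ℝ)) * (4 * p ^ 2) := by
          intro z hz
          rw [Ex_const_mul]
          rw [Finset.mem_sdiff] at hw
          rw [Finset.mem_sdiff, Finset.mem_sdiff] at hz
          have hwz : w ≠ z := by
            rintro rfl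
            exact hz.1.2 hw.1
          rw [Ex_subset _ _ _ (by
            intro v hv
            simp only [Finset.mem_insert, Finset.mem_singleton] at hv
            rw [Finset.mem_sdiff]
            rcases hv with rfl | rfl
            · exact ⟨(Finset.mem_filter.1 hw.1).1, hw.2⟩
            · exact ⟨(Finset.mem_inter.1 hz.1.1).2, hz.2⟩), Finset.card_pair hwz]
          apply mul_le_mul_of_nonneg_left _ (by positivity)
          calc (p / (1 - p)) ^ 2 ≤ (2 * p) ^ 2 := by gcongr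
            _ = 4 * p ^ 2 := by ring
        refine (Finset.sum_le_sum hz).trans ?_
        rw [Finset.sum_const, nsmul_eq_mul]
        have hH : (((lo_H s Y x a' \ s.N a) \ Y).card : ℝ) ≤ 2 * (Λ * D) := by
          refine le_trans ?_ (lo_H_card hs hY hx ha')
          exact_mod_cast Finset.card_le_card (Finset.sdiff_subset.trans Finset.sdiff_subset)
        calc (((lo_H s Y x a' \ s.N a) \ Y).card : ℝ) * (4 / ((s.own Y x).card : ℝ) * (4 * p ^ 2)) ≤
            (2 * (Λ * D)) * (4 / ((s.own Y x).card : ℝ) * (4 * p ^ 2)) := by gcongr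
          _ = _ := by ring
      refine (Finset.sum_le_sum ha').trans ?_
      rw [Finset.sum_const, nsmul_eq_mul]
      apply le_of_eq
      field_simp
      ring
    refine (Finset.sum_le_sum hw).trans ?_
    rw [Finset.sum_const, nsmul_eq_mul]
    have hN : ((s.N a \ Y).card : ℝ) ≤ Λ * D := by
      refine le_trans ?_ (hs.card_le a haA)
      exact_mod_cast Finset.card_le_card Finset.sdiff_subset
    calc ((s.N a \ Y).card : ℝ) * (32 * Λ * D * p ^ 2) ≤ (Λ * D) * (32 * Λ * D * p ^ 2) := by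
          gcongr
      _ = _ := by ring
  refine (Finset.sum_le_sum hterm).trans ?_
  rw [Finset.sum_const, nsmul_eq_mul]
  apply le_of_eq
  ring

end

/-- PM-20 -/
theorem EE_lossy_le {V : Type} [Fintype V] (s : Sys V) (Λ D η : ℝ) (q : ℕ) (hΛ : 1 ≤ Λ)
    (hs : s.OK Λ D η q) (p : ℝ) (hp : 0 < p) (h1 : p ≤ 1 / 4) :
    EE p s.B (fun Y Z => (((s.TP Y Z).filter fun r => s.Lossy Y Z r.1 r.2).card : ℝ)) ≤
      32 * Λ ^ 2 * (p * D) ^ 2 * Ex p s.B (fun X => (s.act2 X : ℝ)) := by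
  have h2 : EE p s.B (fun Y Z => (((s.TP Y Z).filter fun r => s.Lossy Y Z r.1 r.2).card : ℝ)) ≤
      EE p s.B (fun Y Z => ∑ x ∈ Y, ∑ a ∈ s.own Y x, lo_G s Y Z x a) :=
    EE_mono p hp.le (by linarith) _ _ _ fun Y _ Z hZ => lo_count hs hZ
  refine h2.trans ?_
  rw [← Ex_const_mul]
  unfold EE
  exact Ex_mono p hp.le (by linarith) _ _ _ fun Y hY => lo_Ex hs hΛ p hp h1 hY

end Pool.Agent.Helper35.PM
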