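import Pool.Agent.Helper35.PM.Defs2

/-!
# Pivots: existence
-/

set_option autoImplicit false
set_option linter.unusedSimpArgs false
set_option linter.deprecated false

namespace Pool.Agent.Helper35.PM

open Finset
open scoped Classical

/-- PM-1 -/
theorem pivot_exists {V : Type} (A : SimpleGraph V) (u v : V) (h : A.Adj u v) :
    ∃ B : SimpleGraph V, PivotStep A B ∧ ∀ x y, B.Adj x y ↔
      Xor' (A.Adj x y) (x ≠ u ∧ x ≠ v ∧ y ≠ u ∧ y ≠ v ∧
        Xor' (A.Adj u x ∧ A.Adj v y) (A.Adj v x ∧ A.Adj u y)) := by
  refine ⟨_, ⟨u, v, h, rfl⟩, ?_⟩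
  intro x y
  have hv : A.Adj v u := h.symm
  have huv : u ≠ v := h.ne
  have hxy : A.Adj y x ↔ A.Adj x y := A.adj_comm y x
  rw [SimpleGraph.fromRel_adj]
  by_cases exy : x = y
  · subst exy
    simp only [ne_eq, not_true_eq_false, false_and, false_iff]
    have : ¬ A.Adj x x := A.loopless.irrefl x
    by_cases h1 : A.Adj u x <;> by_cases h2 : A.Adj v x <;> simp [Xor', this, h1, h2]
  rw [hxy]
  by_cases exu : x = u
  · subst exu
    have h0 : ¬ A.Adj x x := A.loopless.irrefl x
    have h1 : ¬ y = x := fun e => exy e.symm
    simp only [h0, h, hv, exy, ne_eq, not_true_eq_false, not_false_eq_true, true_and, false_and,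
      and_false, or_false, false_or, and_true, Xor', or_self, not_false_iff]
  by_cases exv : x = v
  · subst exv
    have h0 : ¬ A.Adj x x := A.loopless.irrefl x
    simp only [h0, h, hv, exy, exu, ne_eq, not_true_eq_false, not_false_eq_true, true_and, false_and,
      and_false, or_false, false_or, and_true, Xor', or_self, not_false_iff]
  by_cases eyu : y = u
  · subst eyu
    have h0 : ¬ A.Adj y y := A.loopless.irrefl y
    simp only [h0, h, hv, exy, exv, ne_eq, not_true_eq_false, not_false_eq_true, true_and, false_and,
      and_false, or_false, false_or, and_true, Xor', or_self, not_false_iff]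
  by_cases eyv : y = v
  · subst eyv
    have h0 : ¬ A.Adj y y := A.loopless.irrefl y
    simp only [h0, h, hv, exy, exu, eyu, ne_eq, not_true_eq_false, not_false_eq_true, true_and,
      false_and, and_false, or_false, false_or, and_true, Xor', or_self, not_false_iff]
  simp only [ne_eq, exy, exu, exv, eyu, eyv, not_false_eq_true, and_true, true_and]
  generalize A.Adj x y = a
  generalize A.Adj u x = p
  generalize A.Adj v x = q
  generalize A.Adj u y = p'
  generalize A.Adj v y = q'
  by_cases a <;> by_cases p <;> by_cases q <;> by_cases p' <;> by_cases q' <;> simp [Xor', *]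

end Pool.Agent.Helper35.PM
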