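import Pool.Agent.Helper79.PM.Expect

/-!
# Lower bound for the owned triples
-/

set_option autoImplicit false

namespace Pool.Agent.Helper35.PM

open Finset
open scoped Classical

section

variable {V : Type} (s : Sys V)

/-- rows of `a` not adjacent to `x` -/
noncomputable def tp_N (x a : V) : Finset V := (s.N a).filter fun y => y ≠ x ∧ ¬ s.G.Adj x y

/-- pairs of rows -/
noncomputable def tp_P (x a : V) : Finset (V × V) :=
  (tp_N s x a ×ˢ tp_N s x a).filter fun r => r.1 ≠ r.2 ∧ ¬ s.G.Adj r.1 r.2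

/-- the rows that have to be avoided -/
noncomputable def tp_T (x a y w : V) : Finset V :=
  ((s.N a ∪ s.Bk x ∪ s.Bk y ∪ s.Bk w) \ {x, y, w}) ∩ s.B

/-- the event -/
def tp_E (x a : V) (r : V × V) (Y Z : Finset V) : Prop :=
  (({x, r.1} : Finset V) ⊆ Y ∧ ({r.2} : Finset V) ⊆ Z) ∧ Disjoint (tp_T s x a r.1 r.2) (Y ∪ Z)

variable {s}

theorem tp_mem {x a : V} {r : V × V} (hr : r ∈ tp_P s x a) :
    r.1 ∈ s.N a ∧ r.1 ≠ x ∧ ¬ s.G.Adj x r.1 ∧ r.2 ∈ s.N a ∧ r.2 ≠ x ∧ ¬ s.G.Adj x r.2 ∧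
      r.1 ≠ r.2 ∧ ¬ s.G.Adj r.1 r.2 := by
  simp only [tp_P, tp_N, Finset.mem_filter, Finset.mem_product] at hr
  tauto

theorem tp_N_sub (a : V) : s.N a ⊆ s.B := Finset.filter_subset _ _

theorem tp_inter {Λ D η : ℝ} {q : ℕ} (hs : s.OK Λ D η q) {x a : V} (hx : x ∈ s.B) (ha : a ∈ s.S x)
    {Y Z : Finset V} {r : V × V} (hr : r ∈ tp_P s x a) (hE : tp_E s x a r Y Z) :
    s.N a ∩ (Y ∪ Z) = {x, r.1, r.2} := by
  obtain ⟨h1, h2, h3, h4, h5, h6, h7, h8⟩ := tp_mem hr
  obtain ⟨⟨e1, e2⟩, e3⟩ := hE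
  have hxa := (hs.own x hx a ha).2.1
  ext v
  simp only [Finset.mem_inter, Finset.mem_union, Finset.mem_insert, Finset.mem_singleton]
  constructor
  · rintro ⟨hv, hv2⟩
    by_contra hcon
    push Not at hcon
    have hv3 : v ∈ tp_T s x a r.1 r.2 → False := fun h => Finset.disjoint_left.1 e3 h
      (Finset.mem_union.2 hv2)
    apply hv3
    simp only [tp_T, Finset.mem_inter, Finset.mem_sdiff, Finset.mem_union, Finset.mem_insert,
      Finset.mem_singleton]
    exact ⟨⟨Or.inl (Or.inl (Or.inl hv)), by tauto⟩, tp_N_sub a hv⟩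
  · rintro (rfl | rfl | rfl)
    · exact ⟨hxa, Or.inl (e1 (by simp))⟩
    · exact ⟨h1, Or.inl (e1 (by simp))⟩
    · exact ⟨h4, Or.inr (e2 (by simp))⟩

theorem tp_interY {Λ D η : ℝ} {q : ℕ} (hs : s.OK Λ D η q) {x a : V} (hx : x ∈ s.B) (ha : a ∈ s.S x)
    {Y Z : Finset V} (hZ : Z ⊆ s.B \ Y) {r : V × V} (hr : r ∈ tp_P s x a)
    (hE : tp_E s x a r Y Z) : s.N a ∩ Y = {x, r.1} := by
  have h := tp_inter hs hx ha hr hE
  obtain ⟨h1, h2, h3, h4, h5, h6, h7, h8⟩ := tp_mem hr
  obtain ⟨⟨e1, e2⟩, e3⟩ := hE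
  have hw : r.2 ∉ Y := (Finset.mem_sdiff.1 (hZ (e2 (by simp)))).2
  ext v
  constructor
  · intro hv
    have h9 : v ∈ s.N a ∩ (Y ∪ Z) := by
      simp only [Finset.mem_inter, Finset.mem_union] at hv ⊢
      exact ⟨hv.1, Or.inl hv.2⟩
    rw [h] at h9
    simp only [Finset.mem_insert, Finset.mem_singleton] at h9 ⊢
    rcases h9 with h9 | h9 | h9
    · exact Or.inl h9
    · exact Or.inr h9
    · rw [h9] at hv
      exact absurd (Finset.mem_inter.1 hv).2 hw
  · intro hv
    have h9 : v ∈ s.N a ∩ (Y ∪ Z) := by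
      rw [h]
      simp only [Finset.mem_insert, Finset.mem_singleton] at hv ⊢
      tauto
    exact Finset.mem_inter.2 ⟨(Finset.mem_inter.1 h9).1, e1 hv⟩

theorem tp_interZ {Λ D η : ℝ} {q : ℕ} (hs : s.OK Λ D η q) {x a : V} (hx : x ∈ s.B) (ha : a ∈ s.S x)
    {Y Z : Finset V} (hZ : Z ⊆ s.B \ Y) {r : V × V} (hr : r ∈ tp_P s x a)
    (hE : tp_E s x a r Y Z) : s.N a ∩ Z = {r.2} := by
  have h := tp_inter hs hx ha hr hE
  obtain ⟨h1, h2, h3, h4, h5, h6, h7, h8⟩ := tp_mem hr
  obtain ⟨⟨e1, e2⟩, e3⟩ := hE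
  ext v
  constructor
  · intro hv
    have hvY : v ∉ Y := (Finset.mem_sdiff.1 (hZ (Finset.mem_inter.1 hv).2)).2
    have h9 : v ∈ s.N a ∩ (Y ∪ Z) := by
      simp only [Finset.mem_inter, Finset.mem_union] at hv ⊢
      exact ⟨hv.1, Or.inr hv.2⟩
    rw [h] at h9
    simp only [Finset.mem_insert, Finset.mem_singleton] at h9 ⊢
    rcases h9 with h9 | h9 | h9
    · exact absurd (e1 (by rw [h9]; simp)) hvY
    · exact absurd (e1 (by rw [h9]; simp)) hvY
    · exact h9
  · intro hv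
    rw [Finset.mem_singleton] at hv
    rw [hv]
    exact Finset.mem_inter.2 ⟨h4, e2 (by simp)⟩

theorem tp_TP {Λ D η : ℝ} {q : ℕ} (hs : s.OK Λ D η q) {x a : V} (hx : x ∈ s.B) (ha : a ∈ s.S x)
    {Y Z : Finset V} (hY : Y ⊆ s.B) (hZ : Z ⊆ s.B \ Y) {r : V × V} (hr : r ∈ tp_P s x a)
    (hE : tp_E s x a r Y Z) : (x, a) ∈ s.TP Y Z := by
  have hXX := tp_inter hs hx ha hr hE
  have hYY := tp_interY hs hx ha hZ hr hE
  obtain ⟨h1, h2, h3, h4, h5, h6, h7, h8⟩ := tp_mem hr
  obtain ⟨⟨e1, e2⟩, e3⟩ := hE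
  obtain ⟨haA, hxa, -⟩ := hs.own x hx a ha
  simp only [Sys.TP, Finset.mem_filter, Finset.mem_product]
  refine ⟨⟨e1 (by simp), haA⟩, ha, hxa, ?_, ?_, ?_⟩
  · rw [hXX, Finset.card_insert_of_notMem, Finset.card_pair h7]
    simp only [Finset.mem_insert, Finset.mem_singleton]
    rintro (h | h)
    · exact h2 h.symm
    · exact h5 h.symm
  · intro v hv
    simp only [Sys.Free, Finset.mem_filter]
    refine ⟨(Finset.mem_inter.1 hv).2, ?_⟩
    rw [hXX] at hv
    rw [Finset.disjoint_left]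
    intro z hz hzX
    have hadj := hs.back_adj v z hz
    by_cases hz3 : z ∈ ({x, r.1, r.2} : Finset V)
    · simp only [Finset.mem_insert, Finset.mem_singleton] at hv hz3
      have h3' : ¬ s.G.Adj r.1 x := fun e => h3 e.symm
      have h6' : ¬ s.G.Adj r.2 x := fun e => h6 e.symm
      have h8' : ¬ s.G.Adj r.2 r.1 := fun e => h8 e.symm
      have hirr := s.G.loopless.irrefl
      rcases hv with rfl | rfl | rfl <;> rcases hz3 with rfl | rfl | rfl <;>
        first
          | exact hirr _ hadj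
          | exact h3 hadj
          | exact h6 hadj
          | exact h8 hadj
          | exact h3' hadj
          | exact h6' hadj
          | exact h8' hadj
    · have hv3 : z ∈ tp_T s x a r.1 r.2 → False := fun h => Finset.disjoint_left.1 e3 h hzX
      apply hv3
      simp only [tp_T, Finset.mem_inter, Finset.mem_sdiff, Finset.mem_union]
      refine ⟨⟨?_, hz3⟩, ?_⟩
      · simp only [Finset.mem_insert, Finset.mem_singleton] at hv
        rcases hv with rfl | rfl | rfl
        · exact Or.inl (Or.inl (Or.inr hz))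
        · exact Or.inl (Or.inr hz)
        · exact Or.inr hz
      · rcases Finset.mem_union.1 hzX with h | h
        · exact hY h
        · exact (Finset.mem_sdiff.1 (hZ h)).1
  · rw [hYY, Finset.card_pair h2.symm]

/-- at most one of the events occurs -/
theorem tp_sum_le {Λ D η : ℝ} {q : ℕ} (hs : s.OK Λ D η q) {x a : V} (hx : x ∈ s.B) (ha : a ∈ s.S x)
    {Y Z : Finset V} (hY : Y ⊆ s.B) (hZ : Z ⊆ s.B \ Y) :
    (∑ r ∈ tp_P s x a, if tp_E s x a r Y Z then (1 : ℝ) else 0) ≤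
      if (x, a) ∈ s.TP Y Z then 1 else 0 := by
  by_cases h : ∃ r ∈ tp_P s x a, tp_E s x a r Y Z
  · obtain ⟨r, hr, hE⟩ := h
    rw [if_pos (tp_TP hs hx ha hY hZ hr hE), Finset.sum_boole]
    have h1 : ((tp_P s x a).filter fun r => tp_E s x a r Y Z).card ≤ 1 := by
      rw [Finset.card_le_one]
      intro r₁ hr₁ r₂ hr₂
      rw [Finset.mem_filter] at hr₁ hr₂
      have h1 := tp_interZ hs hx ha hZ hr₁.1 hr₁.2
      have h2 := tp_interZ hs hx ha hZ hr₂.1 hr₂.2
      have h3 := tp_interY hs hx ha hZ hr₁.1 hr₁.2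
      have h4 := tp_interY hs hx ha hZ hr₂.1 hr₂.2
      rw [h1, Finset.singleton_inj] at h2
      rw [h3] at h4
      have h5 : r₁.1 ∈ ({x, r₂.1} : Finset V) := by rw [← h4]; simp
      have h6 := (tp_mem hr₁.1).2.1
      simp only [Finset.mem_insert, Finset.mem_singleton] at h5
      rcases h5 with h5 | h5
      · exact absurd h5 h6
      · exact Prod.ext h5 h2
    exact_mod_cast h1
  · push Not at h
    rw [Finset.sum_eq_zero]
    · split_ifs <;> norm_num
    · intro r hr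
      rw [if_neg (h r hr)]

/-- the number of triples -/
theorem tp_card_ge {Λ D η : ℝ} {q : ℕ} (hs : s.OK Λ D η q)
    {Y Z : Finset V} (hY : Y ⊆ s.B) (hZ : Z ⊆ s.B \ Y) :
    (∑ x ∈ s.B, ∑ a ∈ s.S x, ∑ r ∈ tp_P s x a, if tp_E s x a r Y Z then (1 : ℝ) else 0) ≤
      ((s.TP Y Z).card : ℝ) := by
  have h1 : ((s.TP Y Z).card : ℝ) = ∑ x ∈ s.B, (((s.TP Y Z).filter fun r => r.1 = x).card : ℝ) := by
    rw [Finset.card_eq_sum_card_fiberwise (f := Prod.fst) (t := s.B)]
    · push_cast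
      rfl
    · intro r hr
      rw [Finset.mem_coe, Sys.TP, Finset.mem_filter, Finset.mem_product] at hr
      exact hY hr.1.1
  rw [h1]
  refine Finset.sum_le_sum fun x hx => ?_
  calc (∑ a ∈ s.S x, ∑ r ∈ tp_P s x a, if tp_E s x a r Y Z then (1 : ℝ) else 0)
      ≤ ∑ a ∈ s.S x, if (x, a) ∈ s.TP Y Z then (1 : ℝ) else 0 :=
        Finset.sum_le_sum fun a ha => tp_sum_le hs hx ha hY hZ
    _ = (((s.S x).filter fun a => (x, a) ∈ s.TP Y Z).card : ℝ) := by rw [Finset.sum_boole]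
    _ ≤ _ := by
        have : ((s.S x).filter fun a => (x, a) ∈ s.TP Y Z).card ≤
            ((s.TP Y Z).filter fun r => r.1 = x).card := by
          refine Finset.card_le_card_of_injOn (fun a => (x, a)) ?_ ?_
          · intro a ha
            rw [Finset.mem_coe, Finset.mem_filter] at ha
            rw [Finset.mem_coe, Finset.mem_filter]
            exact ⟨ha.2, rfl⟩
          · intro a _ a' _ h
            exact (Prod.ext_iff.1 h).2
        exact_mod_cast this

/-- probability of the event -/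
theorem tp_prob {Λ D η : ℝ} {q : ℕ} (hs : s.OK Λ D η q) (hΛ : 1 ≤ Λ)
    (p : ℝ) (hp : 0 < p) (h1 : 16 * Λ * (p * D) ≤ 1) {x a : V} (hx : x ∈ s.B) (ha : a ∈ s.S x)
    {r : V × V} (hr : r ∈ tp_P s x a) :
    p ^ 3 / 2 ≤ EE p s.B fun Y Z => if tp_E s x a r Y Z then (1 : ℝ) else 0 := by
  obtain ⟨g1, g2, g3, g4, g5, g6, g7, g8⟩ := tp_mem hr
  have hD := hs.one_le
  have hpD : p ≤ p * D := by nlinarith
  have hp16 : p ≤ 1 / 16 := by nlinarith
  obtain ⟨haA, hxa, -⟩ := hs.own x hx a ha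
  have hyB := tp_N_sub a g1
  have hwB := tp_N_sub a g4
  set T := tp_T s x a r.1 r.2 with hT
  have hTB : T ⊆ s.B := Finset.inter_subset_right
  have hT3 : ∀ b ∈ T, b ≠ x ∧ b ≠ r.1 ∧ b ≠ r.2 := by
    intro b hb
    rw [hT, tp_T, Finset.mem_inter, Finset.mem_sdiff] at hb
    have := hb.1.2
    simp only [Finset.mem_insert, Finset.mem_singleton, not_or] at this
    exact this
  have hTcard : (T.card : ℝ) ≤ 4 * (Λ * D) := by
    have h2 : T.card ≤ (s.N a).card + (s.Bk x).card + (s.Bk r.1).card + (s.Bk r.2).card := by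
      calc T.card ≤ (s.N a ∪ s.Bk x ∪ s.Bk r.1 ∪ s.Bk r.2).card :=
            Finset.card_le_card (Finset.inter_subset_left.trans Finset.sdiff_subset)
        _ ≤ (s.N a ∪ s.Bk x ∪ s.Bk r.1).card + (s.Bk r.2).card := Finset.card_union_le _ _
        _ ≤ (s.N a ∪ s.Bk x).card + (s.Bk r.1).card + (s.Bk r.2).card := by
            gcongr
            exact Finset.card_union_le _ _
        _ ≤ _ := by
            gcongr
            exact Finset.card_union_le _ _
    have h3 := hs.card_le a haA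
    have h4 := hs.back_card x hx
    have h5 := hs.back_card r.1 hyB
    have h6 := hs.back_card r.2 hwB
    have h7 : (T.card : ℝ) ≤ (s.N a).card + (s.Bk x).card + (s.Bk r.1).card + (s.Bk r.2).card := by
      exact_mod_cast h2
    linarith
  -- lower bound for the indicator
  have key : EE p s.B (fun Y Z => (if ({x, r.1} : Finset V) ⊆ Y ∧ ({r.2} : Finset V) ⊆ Z then (1 : ℝ) else 0) +
      (-1) * ∑ b ∈ T, ((if ({x, r.1, b} : Finset V) ⊆ Y ∧ ({r.2} : Finset V) ⊆ Z then (1 : ℝ) else 0) +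
        (if ({x, r.1} : Finset V) ⊆ Y ∧ ({r.2, b} : Finset V) ⊆ Z then (1 : ℝ) else 0))) ≤
      EE p s.B fun Y Z => if tp_E s x a r Y Z then (1 : ℝ) else 0 := by
    apply EE_mono p hp.le (by linarith)
    intro Y hY Z hZ
    by_cases h2 : ({x, r.1} : Finset V) ⊆ Y ∧ ({r.2} : Finset V) ⊆ Z
    · rw [if_pos h2]
      by_cases h3 : Disjoint T (Y ∪ Z)
      · rw [if_pos (show tp_E s x a r Y Z from ⟨h2, h3⟩)]
        have : (0 : ℝ) ≤ ∑ b ∈ T, ((if ({x, r.1, b} : Finset V) ⊆ Y ∧ ({r.2} : Finset V) ⊆ Z then (1 : ℝ) else 0) +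
            (if ({x, r.1} : Finset V) ⊆ Y ∧ ({r.2, b} : Finset V) ⊆ Z then (1 : ℝ) else 0)) := by
          refine Finset.sum_nonneg fun b _ => ?_
          split_ifs <;> norm_num
        linarith
      · rw [if_neg (show ¬ tp_E s x a r Y Z from fun h => h3 h.2)]
        rw [Finset.not_disjoint_iff] at h3
        obtain ⟨b, hbT, hbX⟩ := h3
        have h4 : (1 : ℝ) ≤ ∑ b ∈ T, ((if ({x, r.1, b} : Finset V) ⊆ Y ∧ ({r.2} : Finset V) ⊆ Z then (1 : ℝ) else 0) +
            (if ({x, r.1} : Finset V) ⊆ Y ∧ ({r.2, b} : Finset V) ⊆ Z then (1 : ℝ) else 0)) := by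
          have h5 : ∀ b ∈ T, (0 : ℝ) ≤ (if ({x, r.1, b} : Finset V) ⊆ Y ∧ ({r.2} : Finset V) ⊆ Z then (1 : ℝ) else 0) +
            (if ({x, r.1} : Finset V) ⊆ Y ∧ ({r.2, b} : Finset V) ⊆ Z then (1 : ℝ) else 0) := by
            intro b _
            split_ifs <;> norm_num
          refine le_trans ?_ (Finset.single_le_sum h5 hbT)
          rcases Finset.mem_union.1 hbX with h6 | h6
          · have h7 : ({x, r.1, b} : Finset V) ⊆ Y ∧ ({r.2} : Finset V) ⊆ Z := by
              refine ⟨?_, h2.2⟩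
              intro v hv
              simp only [Finset.mem_insert, Finset.mem_singleton] at hv
              rcases hv with rfl | rfl | rfl
              · exact h2.1 (by simp)
              · exact h2.1 (by simp)
              · exact h6
            rw [if_pos h7]
            split_ifs <;> norm_num
          · have h7 : ({x, r.1} : Finset V) ⊆ Y ∧ ({r.2, b} : Finset V) ⊆ Z := by
              refine ⟨h2.1, ?_⟩
              intro v hv
              simp only [Finset.mem_insert, Finset.mem_singleton] at hv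
              rcases hv with rfl | rfl
              · exact h2.2 (by simp)
              · exact h6
            rw [if_pos h7]
            split_ifs <;> norm_num
        linarith
    · rw [if_neg h2, if_neg (show ¬ tp_E s x a r Y Z from fun h => h2 h.1)]
      have : (0 : ℝ) ≤ ∑ b ∈ T, ((if ({x, r.1, b} : Finset V) ⊆ Y ∧ ({r.2} : Finset V) ⊆ Z then (1 : ℝ) else 0) +
          (if ({x, r.1} : Finset V) ⊆ Y ∧ ({r.2, b} : Finset V) ⊆ Z then (1 : ℝ) else 0)) := by
        refine Finset.sum_nonneg fun b _ => ?_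
        split_ifs <;> norm_num
      linarith
  refine le_trans ?_ key
  rw [EE_add, EE_const_mul, EE_sum]
  have hS2 : ({x, r.1} : Finset V) ⊆ s.B := by
    intro v hv
    simp only [Finset.mem_insert, Finset.mem_singleton] at hv
    rcases hv with rfl | rfl
    · exact hx
    · exact hyB
  have hS1 : ({r.2} : Finset V) ⊆ s.B := by
    intro v hv
    rw [Finset.mem_singleton] at hv
    rw [hv]
    exact hwB
  rw [EE_subset p hp.le (by linarith) s.B _ _ hS2 hS1 (by
    rw [Finset.disjoint_singleton_right]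
    simp only [Finset.mem_insert, Finset.mem_singleton, not_or]
    exact ⟨g5, g7.symm⟩)]
  have h8 : ∀ b ∈ T, EE p s.B (fun Y Z => (if ({x, r.1, b} : Finset V) ⊆ Y ∧ ({r.2} : Finset V) ⊆ Z then (1 : ℝ) else 0) +
        (if ({x, r.1} : Finset V) ⊆ Y ∧ ({r.2, b} : Finset V) ⊆ Z then (1 : ℝ) else 0)) = 2 * p ^ 4 := by
    intro b hb
    obtain ⟨b1, b2, b3⟩ := hT3 b hb
    have hbB := hTB hb
    rw [EE_add]
    rw [EE_subset p hp.le (by linarith) s.B _ _ (by
      intro v hv
      simp only [Finset.mem_insert, Finset.mem_singleton] at hv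
      rcases hv with rfl | rfl | rfl
      · exact hx
      · exact hyB
      · exact hbB) hS1 (by
      rw [Finset.disjoint_singleton_right]
      simp only [Finset.mem_insert, Finset.mem_singleton, not_or]
      exact ⟨g5, g7.symm, b3.symm⟩)]
    rw [EE_subset p hp.le (by linarith) s.B _ _ hS2 (by
      intro v hv
      simp only [Finset.mem_insert, Finset.mem_singleton] at hv
      rcases hv with rfl | rfl
      · exact hwB
      · exact hbB) (by
      rw [Finset.disjoint_left]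
      intro v hv hv2
      simp only [Finset.mem_insert, Finset.mem_singleton] at hv hv2
      rcases hv with rfl | rfl <;> rcases hv2 with h | h
      · exact g5 h.symm
      · exact b1 h.symm
      · exact g7 h
      · exact b2 h.symm)]
    rw [Finset.card_singleton, Finset.card_pair g2.symm, Finset.card_pair b3.symm,
      Finset.card_insert_of_notMem (by
        simp only [Finset.mem_insert, Finset.mem_singleton, not_or]
        exact ⟨g2.symm, b1.symm⟩), Finset.card_pair b2.symm]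
    norm_num
    ring
  rw [Finset.sum_congr rfl h8, Finset.sum_const, nsmul_eq_mul, Finset.card_pair g2.symm,
    Finset.card_singleton]
  have h9 : (T.card : ℝ) * (2 * p ^ 4) ≤ p ^ 3 / 2 := by
    have h10 : (T.card : ℝ) * p ≤ 1 / 4 := by
      calc (T.card : ℝ) * p ≤ 4 * (Λ * D) * p := by gcongr
        _ = (16 * Λ * (p * D)) / 4 := by ring
        _ ≤ 1 / 4 := by linarith
    calc (T.card : ℝ) * (2 * p ^ 4) = 2 * p ^ 3 * (T.card * p) := by ring
      _ ≤ 2 * p ^ 3 * (1 / 4) := by gcongr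
      _ = p ^ 3 / 2 := by ring
  have h11 : p ^ (2 + 1) = p ^ 3 := by norm_num
  rw [h11]
  linarith

/-- the number of pairs -/
theorem tp_pairs {Λ D η : ℝ} {q : ℕ} (hs : s.OK Λ D η q) (hη : 12 * η ≤ 1) (hD : 1 ≤ η * D)
    {x a : V} (hx : x ∈ s.B) (ha : a ∈ s.S x) : D ^ 2 / 2 ≤ ((tp_P s x a).card : ℝ) := by
  obtain ⟨haA, hxa, hadj⟩ := hs.own x hx a ha
  have hD1 := hs.one_le
  have hη0 := hs.eta_pos
  set m : ℝ := ((tp_N s x a).card : ℝ) with hm
  have hm1 : D * (1 - 2 * η) ≤ m := by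
    have h1 : (s.N a).card ≤ (tp_N s x a).card + ((s.N a).filter fun y => s.G.Adj x y).card + 1 := by
      have h2 : s.N a ⊆ tp_N s x a ∪ ((s.N a).filter fun y => s.G.Adj x y) ∪ {x} := by
        intro y hy
        simp only [tp_N, Finset.mem_union, Finset.mem_filter, Finset.mem_singleton]
        tauto
      calc (s.N a).card ≤ (tp_N s x a ∪ ((s.N a).filter fun y => s.G.Adj x y) ∪ {x}).card :=
            Finset.card_le_card h2
        _ ≤ (tp_N s x a ∪ ((s.N a).filter fun y => s.G.Adj x y)).card + ({x} : Finset V).card :=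
            Finset.card_union_le _ _
        _ ≤ _ := by
            rw [Finset.card_singleton]
            gcongr
            exact Finset.card_union_le _ _
    have h3 : ((s.N a).card : ℝ) ≤ m + ((s.N a).filter fun y => s.G.Adj x y).card + 1 := by
      rw [hm]
      exact_mod_cast h1
    have h4 := hs.le_card a haA
    linarith
  have hcard : (tp_N s x a ×ˢ tp_N s x a).card ≤ (tp_P s x a).card +
      (tp_N s x a).card + (((s.N a) ×ˢ (s.N a)).filter fun r => s.G.Adj r.1 r.2).card := by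
    have h2 : tp_N s x a ×ˢ tp_N s x a ⊆ tp_P s x a ∪ ((tp_N s x a).image fun y => (y, y)) ∪
        (((s.N a) ×ˢ (s.N a)).filter fun r => s.G.Adj r.1 r.2) := by
      intro r hr
      simp only [Finset.mem_union, tp_P, Finset.mem_filter, Finset.mem_image, Finset.mem_product] at hr ⊢
      by_cases h3 : r.1 = r.2
      · left; right
        exact ⟨r.1, hr.1, Prod.ext rfl h3⟩
      · by_cases h4 : s.G.Adj r.1 r.2
        · right
          exact ⟨⟨(Finset.mem_filter.1 hr.1).1, (Finset.mem_filter.1 hr.2).1⟩, h4⟩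
        · left; left
          exact ⟨hr, h3, h4⟩
    calc (tp_N s x a ×ˢ tp_N s x a).card ≤ _ := Finset.card_le_card h2
      _ ≤ (tp_P s x a ∪ ((tp_N s x a).image fun y => (y, y))).card +
          (((s.N a) ×ˢ (s.N a)).filter fun r => s.G.Adj r.1 r.2).card := Finset.card_union_le _ _
      _ ≤ (tp_P s x a).card + ((tp_N s x a).image fun y => (y, y)).card +
          (((s.N a) ×ˢ (s.N a)).filter fun r => s.G.Adj r.1 r.2).card := by
          gcongr
          exact Finset.card_union_le _ _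
      _ ≤ _ := by
          gcongr
          exact Finset.card_image_le
  have h5 : m * m ≤ ((tp_P s x a).card : ℝ) + m +
      ((((s.N a) ×ˢ (s.N a)).filter fun r => s.G.Adj r.1 r.2).card : ℝ) := by
    rw [Finset.card_product] at hcard
    rw [hm]
    exact_mod_cast hcard
  have h6 := hs.sparse a haA a haA
  have h7 : (0 : ℝ) ≤ D * (1 - 3 * η) := mul_nonneg (by linarith) (by linarith)
  have h8 : D * (1 - 3 * η) ≤ m - 1 := by linarith
  have h9 : (D * (1 - 2 * η)) * (D * (1 - 3 * η)) ≤ m * (m - 1) := by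
    apply mul_le_mul hm1 h8 h7
    linarith [mul_nonneg (by linarith : (0 : ℝ) ≤ D) (by linarith : (0 : ℝ) ≤ 1 - 2 * η)]
  have h10 : D ^ 2 / 2 ≤ (D * (1 - 2 * η)) * (D * (1 - 3 * η)) - η * D ^ 2 := by
    have : (D * (1 - 2 * η)) * (D * (1 - 3 * η)) - η * D ^ 2 - D ^ 2 / 2 =
        D ^ 2 * ((1 - 12 * η) / 2 + 6 * η ^ 2) := by ring
    have h11 : 0 ≤ D ^ 2 * ((1 - 12 * η) / 2 + 6 * η ^ 2) := by
      apply mul_nonneg (by positivity)
      have : 0 ≤ η ^ 2 := by positivity
      linarith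
    linarith
  nlinarith

end

/-- PM-16 -/
theorem EE_TP_ge {V : Type} [Fintype V] (s : Sys V) (Λ D η : ℝ) (q : ℕ) (hΛ : 1 ≤ Λ)
    (hs : s.OK Λ D η q) (p : ℝ) (hp : 0 < p) (h1 : 16 * Λ * (p * D) ≤ 1) (hη : 12 * η ≤ 1)
    (hD : 1 ≤ η * D) :
    (p * D) ^ 2 / 32 * (q * p * s.B.card) ≤ EE p s.B fun Y Z => ((s.TP Y Z).card : ℝ) := by
  have hD1 := hs.one_le
  have hpD : p ≤ p * D := by nlinarith
  have hp16 : p ≤ 1 / 16 := by nlinarith
  have h2 : EE p s.B (fun Y Z => ∑ x ∈ s.B, ∑ a ∈ s.S x, ∑ r ∈ tp_P s x a,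
      if tp_E s x a r Y Z then (1 : ℝ) else 0) ≤ EE p s.B fun Y Z => ((s.TP Y Z).card : ℝ) :=
    EE_mono p hp.le (by linarith) _ _ _ fun Y hY Z hZ => tp_card_ge hs hY hZ
  refine le_trans ?_ h2
  rw [EE_sum]
  have h3 : ∀ x ∈ s.B, ((s.S x).card : ℝ) * (D ^ 2 * p ^ 3 / 4) ≤
      EE p s.B (fun Y Z => ∑ a ∈ s.S x, ∑ r ∈ tp_P s x a,
      if tp_E s x a r Y Z then (1 : ℝ) else 0) := by
    intro x hx
    rw [EE_sum]
    calc ((s.S x).card : ℝ) * (D ^ 2 * p ^ 3 / 4) = ∑ a ∈ s.S x, D ^ 2 * p ^ 3 / 4 := by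
          rw [Finset.sum_const, nsmul_eq_mul]
      _ ≤ _ := by
          refine Finset.sum_le_sum fun a ha => ?_
          rw [EE_sum]
          calc D ^ 2 * p ^ 3 / 4 = (D ^ 2 / 2) * (p ^ 3 / 2) := by ring
            _ ≤ ((tp_P s x a).card : ℝ) * (p ^ 3 / 2) := by
                gcongr
                exact tp_pairs hs hη hD hx ha
            _ = ∑ r ∈ tp_P s x a, p ^ 3 / 2 := by rw [Finset.sum_const, nsmul_eq_mul]
            _ ≤ _ := Finset.sum_le_sum fun r hr => tp_prob hs hΛ p hp h1 hx ha hr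
  refine le_trans ?_ (Finset.sum_le_sum h3)
  rw [← Finset.sum_mul]
  have h4 : (q : ℝ) * s.B.card ≤ 8 * ∑ x ∈ s.B, ((s.S x).card : ℝ) := by
    exact_mod_cast hs.own_sum
  have h5 : (p * D) ^ 2 / 32 * (q * p * s.B.card) = (q * s.B.card) * (D ^ 2 * p ^ 3 / 32) := by ring
  rw [h5]
  calc ((q : ℝ) * s.B.card) * (D ^ 2 * p ^ 3 / 32) ≤
      (8 * ∑ x ∈ s.B, ((s.S x).card : ℝ)) * (D ^ 2 * p ^ 3 / 32) := by gcongr
    _ = _ := by ring

end Pool.Agent.Helper35.PM
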