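import Pool.Agent.Helper79.PM.Expect
import Pool.Agent.Helper67.PM.Act2
import Pool.Agent.Helper15.PM.Triples
import Pool.Agent.Helper15.PM.Lossy

/-!
# The rotating triples, and the first moment computation
-/

set_option autoImplicit false

namespace Pool.Agent.Helper35.PM

open Finset
open scoped Classical

theorem rot_count {V : Type} (s : Sys V) (κ : ℕ) (Y Z : Finset V) :
    (((s.TP Y Z).filter fun r => s.Rot κ (Y ∪ Z) r.2).card : ℝ) ≤
      3 * ∑ w ∈ Y ∪ Z, (((s.Bad κ ((Y ∪ Z).erase w)).filter fun r => r.2 = w).card : ℝ) := by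
  have h1 : ((s.TP Y Z).filter fun r => s.Rot κ (Y ∪ Z) r.2) ⊆
      (Y ∪ Z).biUnion fun w => ((s.Bad κ ((Y ∪ Z).erase w)).filter fun r => r.2 = w).biUnion
        fun r => (((s.N r.1 ∩ (Y ∪ Z)) ×ˢ {r.1}).filter fun _ => (s.N r.1 ∩ (Y ∪ Z)).card = 3) := by
    rintro ⟨x, a⟩ hr
    rw [Finset.mem_filter] at hr
    obtain ⟨h2, w, hw, hbad⟩ := hr
    simp only [Sys.TP, Finset.mem_filter, Finset.mem_product] at h2
    obtain ⟨⟨hx, haA⟩, haS, hxN, h3, -, -⟩ := h2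
    rw [Finset.mem_biUnion]
    refine ⟨w, (Finset.mem_inter.1 hw).2, ?_⟩
    rw [Finset.mem_biUnion]
    refine ⟨(a, w), ?_, ?_⟩
    · rw [Finset.mem_filter]
      exact ⟨hbad, rfl⟩
    · rw [Finset.mem_filter, Finset.mem_product]
      exact ⟨⟨Finset.mem_inter.2 ⟨hxN, Finset.mem_union_left _ hx⟩, by simp⟩, h3⟩
  have h2 : ((s.TP Y Z).filter fun r => s.Rot κ (Y ∪ Z) r.2).card ≤
      3 * ∑ w ∈ Y ∪ Z, ((s.Bad κ ((Y ∪ Z).erase w)).filter fun r => r.2 = w).card := by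
    refine (Finset.card_le_card h1).trans ?_
    refine Finset.card_biUnion_le.trans ?_
    rw [Finset.mul_sum]
    refine Finset.sum_le_sum fun w _ => ?_
    refine Finset.card_biUnion_le.trans ?_
    have h3 : ∀ r ∈ ((s.Bad κ ((Y ∪ Z).erase w)).filter fun r => r.2 = w),
        (((s.N r.1 ∩ (Y ∪ Z)) ×ˢ {r.1}).filter fun _ => (s.N r.1 ∩ (Y ∪ Z)).card = 3).card ≤ 3 := by
      intro r _
      by_cases h4 : (s.N r.1 ∩ (Y ∪ Z)).card = 3
      · refine (Finset.card_filter_le _ _).trans ?_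
        rw [Finset.card_product, Finset.card_singleton, mul_one, h4]
      · rw [Finset.filter_false_of_mem fun _ _ => h4]
        simp
    refine (Finset.sum_le_card_nsmul _ _ 3 h3).trans ?_
    rw [smul_eq_mul, mul_comm]
  exact_mod_cast h2

/-- PM-21 -/
theorem EE_rot_le {V : Type} [Fintype V] (s : Sys V) (Λ D η : ℝ) (q : ℕ) (hΛ : 1 ≤ Λ)
    (hs : s.OK Λ D η q) (κ : ℕ) (p : ℝ) (hp : 0 < p) (h1 : p ≤ 1 / 4) (δ C : ℝ) (hδ : 0 < δ)
    (hC : 0 < C)
    (hbad : ∀ X ⊆ s.B, ((s.Bad κ X).card : ℝ) ≤ δ * D * (s.Act X).card + C * D * X.card) :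
    EE p s.B (fun Y Z => (((s.TP Y Z).filter fun r => s.Rot κ (Y ∪ Z) r.2).card : ℝ)) ≤
      (48 * Λ * δ * (p * D) ^ 2 * q + 24 * C * (p * D)) * (p * s.B.card) := by
  have hD1 := hs.one_le
  have e1 : EE p s.B (fun Y Z => (((s.TP Y Z).filter fun r => s.Rot κ (Y ∪ Z) r.2).card : ℝ)) ≤
      EE p s.B (fun Y Z => 3 * ∑ w ∈ Y ∪ Z,
        (((s.Bad κ ((Y ∪ Z).erase w)).filter fun r => r.2 = w).card : ℝ)) :=
    EE_mono p hp.le (by linarith) _ _ _ fun Y _ Z _ => rot_count s κ Y Z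
  refine e1.trans ?_
  rw [EE_const_mul, EE_union p hp.le (by linarith) s.B (fun X => ∑ w ∈ X,
        (((s.Bad κ (X.erase w)).filter fun r => r.2 = w).card : ℝ)),
    Ex_exchange (2 * p) (by linarith) (by linarith) s.B (fun X w =>
        (((s.Bad κ X).filter fun r => r.2 = w).card : ℝ))]
  have e2 : ∀ X ⊆ s.B, ∑ w ∈ s.B \ X, (((s.Bad κ X).filter fun r => r.2 = w).card : ℝ) ≤
      δ * D * (s.act2 X : ℝ) + C * D * X.card := by
    intro X hX
    have h2 : (((s.Bad κ X).card : ℕ) : ℝ) =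
        ∑ w ∈ s.B \ X, (((s.Bad κ X).filter fun r => r.2 = w).card : ℝ) := by
      rw [Finset.card_eq_sum_card_fiberwise (f := Prod.snd) (t := s.B \ X)]
      · push_cast
        rfl
      · intro r hr
        rw [Finset.mem_coe, Sys.Bad, Finset.mem_filter, Finset.mem_product] at hr
        exact hr.1.2
    rw [← h2]
    refine (hbad X hX).trans ?_
    have h3 : ((s.Act X).card : ℝ) ≤ s.act2 X := by exact_mod_cast act_le_act2 s X
    have : δ * D * (s.Act X).card ≤ δ * D * (s.act2 X : ℝ) :=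
      mul_le_mul_of_nonneg_left h3 (by positivity)
    linarith
  have e3 := Ex_mono (2 * p) (by linarith) (by linarith) s.B _ _ e2
  rw [Ex_add, Ex_const_mul, Ex_const_mul, Ex_card] at e3
  have e4 := Ex_act2_le s Λ D η q hs (2 * p) (by linarith) (by linarith)
  have e5 : 2 * p / (1 - 2 * p) ≤ 4 * p := by
    rw [div_le_iff₀ (by linarith)]
    nlinarith
  have e6 : 0 ≤ 2 * p / (1 - 2 * p) := div_nonneg (by linarith) (by linarith)
  set E := Ex (2 * p) s.B (fun X => ∑ w ∈ s.B \ X, (((s.Bad κ X).filter fun r => r.2 = w).card : ℝ)) with hE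
  have e7 : 0 ≤ E := by
    have := Ex_mono (2 * p) (by linarith) (by linarith) s.B (fun _ => (0 : ℝ))
      (fun X => ∑ w ∈ s.B \ X, (((s.Bad κ X).filter fun r => r.2 = w).card : ℝ))
      (fun X _ => Finset.sum_nonneg fun w _ => by positivity)
    rw [Ex_const] at this
    exact this
  have e8 : E ≤ δ * D * (Λ * (2 * p * D) * (q * (2 * p) * s.B.card)) + C * D * (2 * p * s.B.card) := by
    refine e3.trans ?_
    have : δ * D * Ex (2 * p) s.B (fun X => (s.act2 X : ℝ)) ≤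
        δ * D * (Λ * (2 * p * D) * (q * (2 * p) * s.B.card)) :=
      mul_le_mul_of_nonneg_left e4 (by positivity)
    linarith
  calc 3 * (2 * p / (1 - 2 * p) * E) ≤ 3 * (4 * p * E) := by gcongr
    _ ≤ 3 * (4 * p * (δ * D * (Λ * (2 * p * D) * (q * (2 * p) * s.B.card)) +
          C * D * (2 * p * s.B.card))) := by gcongr
    _ = _ := by ring

theorem gtp_cover {V : Type} (s : Sys V) (κ : ℕ) (Y Z : Finset V) :
    ((s.TP Y Z).card : ℝ) ≤ ((s.GTP κ Y Z).card : ℝ) +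
      (((s.TP Y Z).filter fun r => ¬ s.Clean (Y ∪ Z) r.1).card : ℝ) +
      (((s.TP Y Z).filter fun r => s.Near Y Z r.1 r.2).card : ℝ) +
      (((s.TP Y Z).filter fun r => s.Lossy Y Z r.1 r.2).card : ℝ) +
      (((s.TP Y Z).filter fun r => s.Rot κ (Y ∪ Z) r.2).card : ℝ) := by
  have h1 : s.TP Y Z ⊆ s.GTP κ Y Z ∪ ((s.TP Y Z).filter fun r => ¬ s.Clean (Y ∪ Z) r.1) ∪
      ((s.TP Y Z).filter fun r => s.Near Y Z r.1 r.2) ∪
      ((s.TP Y Z).filter fun r => s.Lossy Y Z r.1 r.2) ∪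
      ((s.TP Y Z).filter fun r => s.Rot κ (Y ∪ Z) r.2) := by
    intro r hr
    simp only [Sys.GTP, Finset.mem_union, Finset.mem_filter]
    tauto
  have h2 : (s.TP Y Z).card ≤ (s.GTP κ Y Z).card +
      ((s.TP Y Z).filter fun r => ¬ s.Clean (Y ∪ Z) r.1).card +
      ((s.TP Y Z).filter fun r => s.Near Y Z r.1 r.2).card +
      ((s.TP Y Z).filter fun r => s.Lossy Y Z r.1 r.2).card +
      ((s.TP Y Z).filter fun r => s.Rot κ (Y ∪ Z) r.2).card := by
    refine (Finset.card_le_card h1).trans ?_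
    refine (Finset.card_union_le _ _).trans ?_
    gcongr
    refine (Finset.card_union_le _ _).trans ?_
    gcongr
    refine (Finset.card_union_le _ _).trans ?_
    gcongr
    exact Finset.card_union_le _ _
  exact_mod_cast h2

/-- PM-22: the first moment computation. -/
theorem exists_GTP (Λ : ℝ) (hΛ : 1 ≤ Λ) : ∃ δ : ℝ, 0 < δ ∧ ∀ C M : ℝ, 0 < C → 0 < M →
    ∃ (q : ℕ) (η₀ : ℝ), 0 < q ∧ 0 < η₀ ∧ ∀ η : ℝ, 0 < η → η ≤ η₀ →
      ∀ (V : Type) [Fintype V] (s : Sys V) (D : ℝ) (κ : ℕ), s.OK Λ D η q → 1 ≤ η * D →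
        (∀ X ⊆ s.B, ((s.Bad κ X).card : ℝ) ≤ δ * D * (s.Act X).card + C * D * X.card) →
        ∃ Y ⊆ s.B, ∃ Z ⊆ s.B \ Y, M * (Y ∪ Z).card < (s.GTP κ Y Z).card := by
  have hΛ0 : 0 < Λ := by linarith
  refine ⟨1 / (12288 * Λ), by positivity, ?_⟩
  intro C M hC hM
  set θ : ℝ := 1 / (8192 * Λ ^ 3) with hθ
  have hθ0 : 0 < θ := by rw [hθ]; positivity
  have hθΛ : Λ ^ 3 * θ = 1 / 8192 := by
    rw [hθ]
    field_simp
  have hΛ3 : 1 ≤ Λ ^ 3 := one_le_pow₀ hΛ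
  have hΛ13 : Λ ≤ Λ ^ 3 := by
    calc Λ = Λ ^ 1 := (pow_one Λ).symm
      _ ≤ Λ ^ 3 := pow_le_pow_right₀ hΛ (by norm_num)
  have hθ1 : θ ≤ 1 / 8192 := by
    rw [← hθΛ]
    nlinarith
  have hθ2 : Λ * θ ≤ 1 / 8192 := by
    rw [← hθΛ]
    exact mul_le_mul_of_nonneg_right hΛ13 hθ0.le
  obtain ⟨q, hq⟩ := exists_nat_gt ((24 * C * θ + 2 * M + 1) * 256 / θ ^ 2)
  have hqpos : (0 : ℝ) < q := lt_of_le_of_lt (by positivity) hq
  have hq' : 24 * C * θ + 2 * M + 1 ≤ θ ^ 2 * q / 256 := by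
    rw [div_lt_iff₀ (by positivity)] at hq
    linarith
  refine ⟨q, min (1 / 12) (min (1 / (16 * q ^ 3 * θ)) (1 / (4 * q ^ 2 * θ ^ 2))), ?_, ?_, ?_⟩
  · exact_mod_cast hqpos
  · positivity
  intro η hη hη0 V _ s D κ hs hD hbad
  have hη1 : η ≤ 1 / 12 := hη0.trans (min_le_left _ _)
  have hη2 : η ≤ 1 / (16 * q ^ 3 * θ) := hη0.trans ((min_le_right _ _).trans (min_le_left _ _))
  have hη3 : η ≤ 1 / (4 * q ^ 2 * θ ^ 2) := hη0.trans ((min_le_right _ _).trans (min_le_right _ _))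
  rw [le_div_iff₀ (by positivity)] at hη2 hη3
  have hD1 := hs.one_le
  have hD0 : 0 < D := by linarith
  set p : ℝ := θ / D with hp
  have hp0 : 0 < p := by rw [hp]; positivity
  have hpD : p * D = θ := by rw [hp]; field_simp
  have hpθ : p ≤ θ := by
    rw [hp, div_le_iff₀ hD0]
    nlinarith
  have hp4 : p ≤ 1 / 4 := by linarith
  have hB : (0 : ℝ) < s.B.card := by exact_mod_cast Finset.card_pos.2 hs.rows_ne
  have t1 := EE_TP_ge s Λ D η q hΛ hs p hp0 (by rw [hpD]; nlinarith) (by linarith) hD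
  have t2 := EE_unclean_le s Λ D η q hs p hp0 hp4
  have t3 := EE_near_le s Λ D η q hs p hp0 hp4
  have t4 := EE_lossy_le s Λ D η q hΛ hs p hp0 hp4
  have t5 := EE_rot_le s Λ D η q hΛ hs κ p hp0 hp4 (1 / (12288 * Λ)) C (by positivity) hC hbad
  have t6 := Ex_act2_le s Λ D η q hs p hp0 (by linarith)
  rw [hpD] at t1 t2 t3 t4 t5 t6
  have t7 := EE_mono p hp0.le (by linarith) s.B _ _ fun Y _ Z _ => gtp_cover s κ Y Z
  rw [EE_add, EE_add, EE_add, EE_add] at t7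
  have t8 : EE p s.B (fun Y Z => ((Y ∪ Z).card : ℝ)) = 2 * p * s.B.card := by
    rw [EE_union p hp0.le (by linarith) s.B (fun X => (X.card : ℝ)), Ex_card]
  obtain ⟨Y, hY, Z, hZ, hYZ⟩ := exists_ge_EE p hp0.le (by linarith) s.B
    (fun Y Z => ((s.GTP κ Y Z).card : ℝ) + (-M) * ((Y ∪ Z).card : ℝ))
  refine ⟨Y, hY, Z, hZ, ?_⟩
  rw [EE_add, EE_const_mul, t8] at hYZ
  have hpB : 0 < p * s.B.card := by positivity
  have t9 : 32 * Λ ^ 2 * θ ^ 2 * Ex p s.B (fun X => (s.act2 X : ℝ)) ≤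
      32 * Λ ^ 2 * θ ^ 2 * (Λ * θ * (q * p * s.B.card)) :=
    mul_le_mul_of_nonneg_left t6 (by positivity)
  have t10 : 32 * Λ ^ 2 * θ ^ 2 * (Λ * θ * (q * p * s.B.card)) =
      θ ^ 2 * q / 256 * (p * s.B.card) := by
    have : 32 * Λ ^ 2 * θ ^ 2 * (Λ * θ * (q * p * s.B.card)) =
        32 * (Λ ^ 3 * θ) * (θ ^ 2 * q * (p * s.B.card)) := by ring
    rw [this, hθΛ]
    ring
  have t11 : 48 * Λ * (1 / (12288 * Λ)) * θ ^ 2 * q = θ ^ 2 * q / 256 := by
    field_simp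
    ring
  rw [t11] at t5
  have t12 : 4 * (q : ℝ) ^ 3 * η * θ * (p * s.B.card) ≤ 1 / 4 * (p * s.B.card) := by
    apply mul_le_mul_of_nonneg_right _ hpB.le
    linarith
  have t13 : (q : ℝ) ^ 2 * η * θ ^ 2 * (p * s.B.card) ≤ 1 / 4 * (p * s.B.card) := by
    apply mul_le_mul_of_nonneg_right _ hpB.le
    linarith
  have t14 : θ ^ 2 / 32 * (q * p * s.B.card) = 8 * (θ ^ 2 * q / 256 * (p * s.B.card)) := by ring
  have t15 : (24 * C * θ + 2 * M + 1) * (p * s.B.card) ≤ θ ^ 2 * q / 256 * (p * s.B.card) :=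
    mul_le_mul_of_nonneg_right hq' hpB.le
  have t16 : (24 * C * θ + 2 * M + 1) * (p * s.B.card) =
      24 * C * θ * (p * s.B.card) + M * (2 * p * s.B.card) + p * s.B.card := by ring
  have t17 : (θ ^ 2 * q / 256 + 24 * C * θ) * (p * s.B.card) =
      θ ^ 2 * q / 256 * (p * s.B.card) + 24 * C * θ * (p * s.B.card) := by ring
  have t18 : 0 < 24 * C * θ * (p * s.B.card) := by positivity
  have t19 : 0 < M * (2 * p * s.B.card) := by positivity
  rw [t14] at t1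
  rw [t17] at t5
  rw [t16] at t15
  have : 0 < ((s.GTP κ Y Z).card : ℝ) + (-M) * ((Y ∪ Z).card : ℝ) := by
    refine lt_of_lt_of_le ?_ hYZ
    linarith
  linarith

end Pool.Agent.Helper35.PM
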